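import Pool.Agent.Helper34.LT.Df
import Pool.Agent.Helper13.LT.Rtm

/-!
PROJECT LT, A4: the system of block G for a power of the theta structure, choice of the power.
-/

set_option autoImplicit false

namespace Pool.Agent.Helper7.LT

open Finset
open Pool.Agent.Helper34.LT Pool.Agent.Helper13.LT

/-- entire functions form a domain -/
theorem ent_mul_zero {ι : Type} [Fintype ι] {h G : (ι → ℂ) → ℂ} (hh : Differentiable ℂ h)
    (hG : Differentiable ℂ G) (h0 : ∀ z, h z * G z = 0) (hne : ∃ z, h z ≠ 0) : ∀ z, G z = 0 := by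
  obtain ⟨p, hp⟩ := hne
  intro z
  have hl : Differentiable ℂ (fun s : ℂ => p + s • (z - p)) := by
    fun_prop
  have h1 : AnalyticOnNhd ℂ (fun s : ℂ => h (p + s • (z - p))) Set.univ :=
    (hh.comp hl).differentiableOn.analyticOnNhd isOpen_univ
  have h2 : AnalyticOnNhd ℂ (fun s : ℂ => G (p + s • (z - p))) Set.univ :=
    (hG.comp hl).differentiableOn.analyticOnNhd isOpen_univ
  rcases AnalyticOnNhd.eq_zero_or_eq_zero_of_mul_eq_zero h1 h2 (fun s _ => h0 _)
    isPreconnected_univ with h3 | h3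
  · exact absurd (by simpa using h3 0 (Set.mem_univ _)) hp
  · simpa using h3 1 (Set.mem_univ _)

/-- `RT D N` is contained in `RT (D ^ N) 1` -/
theorem RT_pow_one {ι : Type} [Fintype ι] {D N : ℕ} (hD : 1 ≤ D) (hN : 1 ≤ N)
    {f : (ι → ℂ) → ℂ} (h : RT D N f) : RT (D ^ N) 1 f := by
  obtain ⟨c, hc, hA⟩ := (RT_iff hD).1 h
  refine (RT_iff (Nat.one_le_pow _ _ hD)).2 ⟨c, hc, fun m => ?_⟩
  obtain ⟨a, ha⟩ := hA m
  obtain ⟨M, rfl⟩ := Nat.exists_eq_add_of_le hN
  refine ⟨a * (D : ℤ) ^ (M * ∑ u, m u), ?_⟩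
  push_cast
  rw [← ha, ← pow_mul]
  have : (1 + M) * (∑ u, m u + 1) = (∑ u, m u + (1 + M)) + M * ∑ u, m u := by ring
  rw [this, pow_add (D : ℂ) (∑ u, m u + (1 + M))]
  ring

/-- the degree bookkeeping of `mon` -/
theorem mon_pow {ι : Type} (g L N : ℕ) (hN : 1 ≤ N) (f0 : (ι → ℂ) → ℂ)
    (f : Fin g → (ι → ℂ) → ℂ) (e : Fin g → Fin (L + 1)) (z : ι → ℂ) :
    mon g L (fun z => f0 z ^ N) (fun i z => f i z * f0 z ^ (N - 1)) e z =
      f0 z ^ ((N - 1) * (g * L)) * mon g L f0 f e z := by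
  have hs : ∑ i, (e i : ℕ) ≤ g * L := by
    refine (Finset.sum_le_card_nsmul _ _ L fun i _ => Nat.lt_succ_iff.1 (e i).2).trans ?_
    simp
  obtain ⟨d, hd⟩ := Nat.exists_eq_add_of_le hs
  obtain ⟨M, rfl⟩ := Nat.exists_eq_add_of_le hN
  unfold mon
  simp only [mul_pow, Finset.prod_mul_distrib, ← pow_mul, Finset.prod_pow_eq_pow_sum]
  have e1 : g * L - ∑ i, (e i : ℕ) = d := by omega
  have e2 : 1 + M - 1 = M := by omega
  rw [e1, e2]
  simp only [← Finset.mul_sum]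
  rw [hd]
  ring

theorem sys_pow (q a b : ℕ) (hq : q.Prime) (hq3 : 3 ≤ q) (κ : Phi q a b → ℂ) (c : Polynomial ℤ → ℂ)
    (f0 : (Phi q a b → ℂ) → ℂ) (f : Fin ((q - 1) / 2) → (Phi q a b → ℂ) → ℂ)
    (h : IsSys q a b κ c f0 f) (N : ℕ) (hN : 1 ≤ N) :
    IsSys q a b (fun u => N * κ u) (fun P => N * c P) (fun z => f0 z ^ N)
      (fun i z => f i z * f0 z ^ (N - 1)) := by
  have hQ : ∀ F : (Phi q a b → ℂ) → ℂ, QP q a b κ c F →
      QP q a b (fun u => N * κ u) (fun P => N * c P) (fun z => F z ^ N) := by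
    intro F hF P z
    have e1 : (∑ u, (N : ℂ) * κ u * (starRingEnd ℂ) (pt q _ P u) * z u + N * c P) =
        N * (∑ u, κ u * (starRingEnd ℂ) (pt q _ P u) * z u + c P) := by
      rw [mul_add, Finset.mul_sum]
      simp only [mul_assoc]
    simp only [hF P z, mul_pow, ← Complex.exp_nat_mul, e1]
  have hg1 : 1 ≤ (q - 1) / 2 := by omega
  have h00 : ∃ z, f0 z ≠ 0 := by
    by_contra hcon
    push Not at hcon
    have h1 := (h.indep 1).ne_zero (fun _ => 0)
    apply h1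
    funext z
    unfold mon
    rw [hcon z]
    have : (q - 1) / 2 * 1 - ∑ i : Fin ((q - 1) / 2), (((fun _ => 0) : Fin ((q - 1) / 2) → Fin (1 + 1)) i : ℕ) = (q - 1) / 2 := by
      simp
    rw [this, zero_pow (by omega), zero_mul]
    rfl
  refine ⟨fun u => ?_, h.diff0.pow N, fun i => (h.diff i).mul (h.diff0.pow _), hQ f0 h.qp0,
    fun i P z => ?_, ?_, ?_, fun p => ?_, fun L => ?_⟩
  · exact mul_ne_zero (Nat.cast_ne_zero.2 (by omega)) (h.kap u)
  · have e1 : (∑ u, (N : ℂ) * κ u * (starRingEnd ℂ) (pt q _ P u) * z u + N * c P) =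
        (∑ u, κ u * (starRingEnd ℂ) (pt q _ P u) * z u + c P) +
          ((N - 1 : ℕ) : ℂ) * (∑ u, κ u * (starRingEnd ℂ) (pt q _ P u) * z u + c P) := by
      rw [Nat.cast_sub hN, Nat.cast_one, sub_mul, one_mul, add_sub_cancel, mul_add, Finset.mul_sum]
      simp only [mul_assoc]
    simp only [h.qp i P z, h.qp0 P z, mul_pow, ← Complex.exp_nat_mul, e1]
    generalize (∑ u, κ u * (starRingEnd ℂ) (pt q _ P u) * z u + c P) = A
    rw [Complex.exp_add]
    ring
  · obtain ⟨D, hD, h0, h1⟩ := h.rt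
    refine ⟨D ^ N, Nat.one_le_pow _ _ hD, RT_pow_one hD hN ?_, fun i => RT_pow_one hD hN ?_⟩
    · simpa using RT.pow hD h0 N
    · have h2 := RT.mul hD (h1 i) (RT.pow hD h0 (N - 1))
      have e1 : 1 + 1 * (N - 1) = N := by omega
      rwa [e1] at h2
  · obtain ⟨C, hC⟩ := h.growth
    refine ⟨N * C, fun z => ?_⟩
    have h0 := (hC z).1
    have h1 := (hC z).2
    have key : ∀ M : ℕ, ‖f0 z‖ ^ M ≤ Real.exp (M * (C * (1 + ‖z‖ ^ 2))) := by
      intro M
      rw [Real.exp_nat_mul]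
      exact pow_le_pow_left₀ (norm_nonneg _) h0 M
    constructor
    · rw [norm_pow]
      refine (key N).trans (le_of_eq ?_)
      congr 1
      ring
    · intro i
      rw [norm_mul, norm_pow]
      refine (mul_le_mul (h1 i) (key (N - 1)) (by positivity) (Real.exp_pos _).le).trans
        (le_of_eq ?_)
      rw [← Real.exp_add, Nat.cast_sub hN, Nat.cast_one]
      congr 1
      ring
  · obtain ⟨F, hF, hQF, hp⟩ := h.bpf p
    exact ⟨fun z => F z ^ N, hF.pow N, hQ F hQF, pow_ne_zero _ hp⟩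
  · have hd : ∀ e : Fin ((q - 1) / 2) → Fin (L + 1),
        Differentiable ℂ (mon ((q - 1) / 2) L f0 f e) := by
      intro e
      unfold mon
      have h5 : ∀ i, Differentiable ℂ fun z => f i z ^ (e i : ℕ) := fun i => (h.diff i).pow (e i : ℕ)
      have h6 : ∀ s : Finset (Fin ((q - 1) / 2)),
          Differentiable ℂ fun z => ∏ i ∈ s, f i z ^ (e i : ℕ) := by
        intro s
        induction s using Finset.induction_on with
        | empty => simp
        | insert i s hi ih =>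
          simp only [Finset.prod_insert hi]
          exact (h5 i).mul ih
      exact (h.diff0.pow _).mul (h6 _)
    have hl := h.indep L
    rw [Fintype.linearIndependent_iff] at hl ⊢
    intro a ha
    apply hl a
    have hG : Differentiable ℂ (fun z => ∑ e, a e * mon ((q - 1) / 2) L f0 f e z) :=
      Differentiable.fun_sum fun e _ => (hd e).const_mul (a e)
    funext z
    have h3 := ent_mul_zero (h.diff0.pow ((N - 1) * ((q - 1) / 2 * L))) hG (fun w => by
      have h4 := congrFun ha w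
      simp only [Finset.sum_apply, Pi.smul_apply, smul_eq_mul, Pi.zero_apply] at h4
      simp only [Pi.pow_apply]
      rw [Finset.mul_sum, ← h4]
      refine Finset.sum_congr rfl fun e _ => ?_
      rw [mon_pow _ _ _ hN]
      ring) (by
      obtain ⟨w, hw⟩ := h00
      exact ⟨w, pow_ne_zero _ hw⟩) z
    simpa only [Finset.sum_apply, Pi.smul_apply, smul_eq_mul, Pi.zero_apply] using h3

/-- `rho` is not zero (private copy) -/
theorem rho_ne' (q a b u : ℕ) (hq : q.Prime) (ha : ¬ q ∣ a) (hb : ¬ q ∣ b)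
    (hu : u ∈ Phi q a b) : rho q a b u ≠ 0 := by
  obtain ⟨h1, h2⟩ := Finset.mem_filter.1 hu
  obtain ⟨h3, h4⟩ := Finset.mem_Icc.1 h1
  have hq0 : (0 : ℝ) < q := by exact_mod_cast hq.pos
  have hu0 : ¬ q ∣ u := fun h => by
    have := Nat.le_of_dvd (by omega) h
    omega
  have hpa : 0 < al q a u := by
    unfold al
    refine div_pos (Nat.cast_pos.2 (Nat.pos_of_ne_zero fun h => ?_)) hq0
    rcases hq.dvd_mul.1 (Nat.dvd_of_mod_eq_zero h) with h | h
    · exact hu0 h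
    · exact ha h
  have hpb : 0 < al q b u := by
    unfold al
    refine div_pos (Nat.cast_pos.2 (Nat.pos_of_ne_zero fun h => ?_)) hq0
    rcases hq.dvd_mul.1 (Nat.dvd_of_mod_eq_zero h) with h | h
    · exact hu0 h
    · exact hb h
  have hs : 1 < al q a u + al q b u := by
    unfold al
    rw [← add_div, lt_div_iff₀ hq0, one_mul]
    exact_mod_cast h2
  have hB : Complex.betaIntegral (al q a u) (al q b u) ≠ 0 := by
    intro h
    have h5 := Complex.Gamma_mul_Gamma_eq_betaIntegral (s := (al q a u : ℂ)) (t := (al q b u : ℂ))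
      (by simpa using hpa) (by simpa using hpb)
    rw [h, mul_zero] at h5
    rcases mul_eq_zero.1 h5 with h6 | h6
    · exact Complex.Gamma_ne_zero_of_re_pos (by simpa using hpa) h6
    · exact Complex.Gamma_ne_zero_of_re_pos (by simpa using hpb) h6
  have hm : ((al q a u : ℂ) + (al q b u : ℂ) - 1) ≠ 0 := by
    have h5 : (al q a u + al q b u - 1 : ℝ) ≠ 0 := by linarith
    exact_mod_cast h5
  unfold rho
  refine div_ne_zero (mul_ne_zero ?_ (Complex.exp_ne_zero _)) (mul_ne_zero hB hm)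
  exact mul_ne_zero (mul_ne_zero two_ne_zero (Complex.ofReal_ne_zero.2 Real.pi_ne_zero))
    Complex.I_ne_zero

/-- choice of the power -/
theorem exists_pow (q : ℕ) (hq : q.Prime) (h41 : 41 ≤ q) (κ1 : Phi q 1 1 → ℂ) (κ2 : Phi q 1 3 → ℂ)
    (h2 : ∀ u, κ2 u ≠ 0) : ∃ N : ℕ, 1 ≤ N ∧
      (∀ u (hu : u ∈ Phi q 1 1) (hv : u ∈ Phi q 1 3),
        κ1 ⟨u, hu⟩ * rho q 1 1 u + (N * κ2 ⟨u, hv⟩) * rho q 1 3 u ≠ 0) ∧
      (∀ u (hu : u ∈ Phi q 1 1) (hv : q - u ∈ Phi q 1 3),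
        κ1 ⟨u, hu⟩ * rho q 1 1 u - (N * κ2 ⟨q - u, hv⟩) * rho q 1 3 (q - u) ≠ 0) := by
  have d1 : ¬ q ∣ 1 := fun h => by
    have := Nat.le_of_dvd one_pos h
    omega
  have d3 : ¬ q ∣ 3 := fun h => by
    have := Nat.le_of_dvd (by norm_num) h
    omega
  have aux : ∀ x y z : ℂ, y ≠ 0 → z ≠ 0 → {N : ℕ | x + (N * y) * z = 0}.Subsingleton := by
    intro x y z hy hz N hN M hM
    change _ + _ = (0 : ℂ) at hN hM
    have h3 : ((N : ℂ) - M) * (y * z) = 0 := by linear_combination hN - hM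
    rcases mul_eq_zero.1 h3 with h4 | h4
    · exact_mod_cast sub_eq_zero.1 h4
    · exact absurd h4 (mul_ne_zero hy hz)
  have f1 : (⋃ u ∈ Finset.range q, {N : ℕ | ∃ (hu : u ∈ Phi q 1 1) (hv : u ∈ Phi q 1 3),
      κ1 ⟨u, hu⟩ * rho q 1 1 u + (N * κ2 ⟨u, hv⟩) * rho q 1 3 u = 0}).Finite := by
    refine Set.Finite.biUnion (Finset.finite_toSet _) fun u _ => Set.Subsingleton.finite ?_
    rintro N ⟨hu, hv, hN⟩ M ⟨hu', hv', hM⟩
    exact aux _ _ _ (h2 _) (rho_ne' q 1 3 u hq d1 d3 hv) hN hM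
  have f2 : (⋃ u ∈ Finset.range q, {N : ℕ | ∃ (hu : u ∈ Phi q 1 1) (hv : q - u ∈ Phi q 1 3),
      κ1 ⟨u, hu⟩ * rho q 1 1 u - (N * κ2 ⟨q - u, hv⟩) * rho q 1 3 (q - u) = 0}).Finite := by
    refine Set.Finite.biUnion (Finset.finite_toSet _) fun u _ => Set.Subsingleton.finite ?_
    rintro N ⟨hu, hv, hN⟩ M ⟨hu', hv', hM⟩
    refine aux (- (κ1 ⟨u, hu⟩ * rho q 1 1 u)) _ _ (h2 ⟨q - u, hv⟩)
      (rho_ne' q 1 3 (q - u) hq d1 d3 hv) ?_ ?_
    · change _ + _ = (0 : ℂ)
      linear_combination -hN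
    · change _ + _ = (0 : ℂ)
      linear_combination -hM
  obtain ⟨N, hN1, hN⟩ := ((Set.Ici_infinite 1).sdiff (f1.union f2)).nonempty
  have hlt : ∀ u, u ∈ Phi q 1 1 → u ∈ Finset.range q := by
    intro u hu
    have := (Finset.mem_Icc.1 (Finset.mem_filter.1 hu).1).2
    have := hq.pos
    exact Finset.mem_range.2 (by omega)
  refine ⟨N, hN1, fun u hu hv h3 => hN (Or.inl ?_), fun u hu hv h3 => hN (Or.inr ?_)⟩
  · exact Set.mem_biUnion (hlt u hu) ⟨hu, hv, h3⟩
  · exact Set.mem_biUnion (hlt u hu) ⟨hu, hv, h3⟩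

end Pool.Agent.Helper7.LT
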