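import Pool.Agent.Helper34.LT.Df

/-!
PROJECT LT: transfer of algebraic independence from the scales `rho` to the Gamma values.
-/

set_option autoImplicit false

namespace Pool.Agent.Helper7.LT

open Finset
open Pool.Agent.Helper34.LT

/-- exchange: if the `y s` are algebraic over the field generated by the `x i` and the `y s` are
algebraically independent then there is a subfamily of the `x i` of at least the same size which is
algebraically independent -/
private theorem exch {k L : Type*} [Field k] [Field L] [Algebra k L] {ι ι' : Type*} [Finite ι]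
    [Fintype ι'] (x : ι → L) (y : ι' → L)
    (h : ∀ s, IsAlgebraic (IntermediateField.adjoin k (Set.range x)) (y s))
    (hy : AlgebraicIndependent k y) :
    ∃ T : Finset ι, Fintype.card ι' ≤ T.card ∧ AlgebraicIndependent k (fun t : T => x t) := by
  classical
  obtain ⟨B, hB⟩ := (AlgebraicIndependent.matroid k L).exists_isBasis (Set.range x)
  have hB1 : AlgebraicIndependent k ((↑) : B → L) := hB.indep
  have hB2 := hB.subset
  have hind : (AlgebraicIndependent.matroid k L).Indep (Set.range y) := hy.to_subtype_range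
  have hcl : Set.range y ⊆ (AlgebraicIndependent.matroid k L).closure (Set.range x) := by
    rintro _ ⟨t, rfl⟩
    rw [AlgebraicIndependent.matroid_closure_eq]
    exact IntermediateField.isAlgebraic_adjoin_iff.1 (h t)
  have hcard : (Set.range y).encard ≤ B.encard := by
    rw [hB.encard_eq_eRk, ← Matroid.eRk_closure_eq]
    exact hind.encard_le_eRk_of_subset hcl
  have hBf : B.Finite := (Set.finite_range x).subset hB2
  have hc1 : (Set.range y).encard = Fintype.card ι' := by
    rw [← Set.image_univ, hy.injective.encard_image, Set.encard_univ]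
    simp
  have hidx : ∀ a : B, ∃ i : ι, x i = a := fun a => hB2 a.2
  choose idx hidx using hidx
  have hinj : Function.Injective idx := by
    intro a b hab
    apply Subtype.ext
    rw [← hidx a, ← hidx b, hab]
  let _ : Fintype B := hBf.fintype
  refine ⟨Finset.univ.image idx, ?_, ?_⟩
  · rw [Finset.card_image_of_injective _ hinj, Finset.card_univ]
    rw [hc1, Set.encard_eq_coe_toFinset_card, Set.toFinset_card] at hcard
    exact_mod_cast hcard
  · have hmem : ∀ i : (Finset.univ.image idx : Finset ι), ∃ a : B, idx a = i := by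
      intro i
      obtain ⟨a, -, ha⟩ := Finset.mem_image.1 i.2
      exact ⟨a, ha⟩
    choose back hback using hmem
    have hbinj : Function.Injective back := by
      intro i j hij
      apply Subtype.ext
      rw [← hback i, ← hback j, hij]
    have h := hB1.comp back hbinj
    have h2 : (fun i : (Finset.univ.image idx : Finset ι) => x i) =
        ((↑) : B → L) ∘ back := by
      funext i
      show x i = (back i : L)
      rw [← hidx (back i), hback i]
    rw [h2]
    exact h

theorem transfer (q : ℕ) (hq : q.Prime) (h5 : 5 ≤ q)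
    (hrho : ∀ a b u : ℕ, ¬ q ∣ a → ¬ q ∣ b → ¬ q ∣ a + b → u ∈ Phi q a b →
      IsAlgebraic (IntermediateField.adjoin ℚ
        {x : ℂ | ∃ a : ℕ, 1 ≤ a ∧ a < q ∧ x = Complex.Gamma ((a : ℂ) / q)}) (rho q a b u))
    (h : ∀ a b c : ℕ, 1 ≤ a → a < q → 1 ≤ b → b < q → 1 ≤ c → c < q →
      ¬ AlgebraicIndependent ℚ
        ![Real.Gamma ((a : ℝ) / q), Real.Gamma ((b : ℝ) / q), Real.Gamma ((c : ℝ) / q)]) :
    ∀ i j k : Phi q 1 1 ⊕ Phi q 1 3,
      ¬ AlgebraicIndependent ℚ
        ![Sum.elim (fun u : Phi q 1 1 => rho q 1 1 u) (fun v : Phi q 1 3 => rho q 1 3 v) i,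
          Sum.elim (fun u : Phi q 1 1 => rho q 1 1 u) (fun v : Phi q 1 3 => rho q 1 3 v) j,
          Sum.elim (fun u : Phi q 1 1 => rho q 1 1 u) (fun v : Phi q 1 3 => rho q 1 3 v) k] := by
  intro i j k hind
  -- the Gamma values as a finite family
  set x : {a : Fin q // 1 ≤ (a : ℕ)} → ℂ := fun a => Complex.Gamma (((a : Fin q) : ℕ) / (q : ℂ))
    with hx
  have hrange : Set.range x =
      {x : ℂ | ∃ a : ℕ, 1 ≤ a ∧ a < q ∧ x = Complex.Gamma ((a : ℂ) / q)} := by
    ext z
    constructor
    · rintro ⟨a, rfl⟩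
      exact ⟨a.1, a.2, a.1.2, rfl⟩
    · rintro ⟨a, h1, h2, rfl⟩
      exact ⟨⟨⟨a, h2⟩, h1⟩, rfl⟩
  have hq1 : ¬ q ∣ 1 := fun h => by
    have := Nat.le_of_dvd one_pos h
    omega
  have hq2 : ¬ q ∣ 1 + 1 := fun h => by
    have := Nat.le_of_dvd (by norm_num) h
    omega
  have hq3 : ¬ q ∣ 3 := fun h => by
    have := Nat.le_of_dvd (by norm_num) h
    omega
  have hq4 : ¬ q ∣ 1 + 3 := fun h => by
    have := Nat.le_of_dvd (by norm_num) h
    omega
  have halg : ∀ w : Phi q 1 1 ⊕ Phi q 1 3, IsAlgebraic (IntermediateField.adjoin ℚ (Set.range x))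
      (Sum.elim (fun u : Phi q 1 1 => rho q 1 1 u) (fun v : Phi q 1 3 => rho q 1 3 v) w) := by
    intro w
    rw [hrange]
    rcases w with u | v
    · exact hrho 1 1 u hq1 hq1 hq2 u.2
    · exact hrho 1 3 v hq1 hq3 hq4 v.2
  obtain ⟨T, hT, hTi⟩ := exch x _ (fun s => by
    fin_cases s
    · exact halg i
    · exact halg j
    · exact halg k) hind
  rw [Fintype.card_fin] at hT
  obtain ⟨T', hT', hc⟩ := Finset.exists_subset_card_eq hT
  have e : Fin 3 ≃ T' := (Finset.equivFinOfCardEq hc).symm
  set t : Fin 3 → T := fun n => ⟨(e n).1, hT' (e n).2⟩ with ht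
  have htinj : Function.Injective t := by
    intro m n hmn
    apply e.injective
    apply Subtype.ext
    exact congrArg (fun z : T => (z : {a : Fin q // 1 ≤ (a : ℕ)})) hmn
  have h1 := hTi.comp t htinj
  set A : Fin 3 → ℕ := fun n => (((t n : {a : Fin q // 1 ≤ (a : ℕ)}) : Fin q) : ℕ) with hA
  have hA1 : ∀ n, 1 ≤ A n := fun n => (t n).1.2
  have hA2 : ∀ n, A n < q := fun n => (t n).1.1.2
  apply h (A 0) (A 1) (A 2) (hA1 0) (hA2 0) (hA1 1) (hA2 1) (hA1 2) (hA2 2)
  have h3 : ∀ a : ℕ, ((Real.Gamma ((a : ℝ) / q) : ℝ) : ℂ) = Complex.Gamma ((a : ℂ) / q) := by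
    intro a
    rw [← Complex.Gamma_ofReal]
    push_cast
    rfl
  have h4 : (⇑(Complex.ofRealAm.restrictScalars ℚ)) ∘
      ![Real.Gamma ((A 0 : ℕ) / (q : ℝ)), Real.Gamma ((A 1 : ℕ) / (q : ℝ)),
        Real.Gamma ((A 2 : ℕ) / (q : ℝ))] = (fun t : T => x t) ∘ t := by
    funext n
    fin_cases n
    · exact h3 (A 0)
    · exact h3 (A 1)
    · exact h3 (A 2)
  refine AlgebraicIndependent.of_comp (Complex.ofRealAm.restrictScalars ℚ) ?_
  rw [h4]
  exact h1

end Pool.Agent.Helper7.LT
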